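import Pool.Agent.V11257.UFDiv

/-!
# A decreasing chain for finite embeddability without a greatest lower bound

Let `G n` be the ultrafilter of the numbers `2 ^ (2 ^ i - n)`, for `i` generic for a nonprincipal
ultrafilter.  The chain `G 0, G 1, ...` is decreasing, and its lower bounds are exactly the principal
ultrafilters `2 ^ m`, which have no greatest element.
-/

set_option autoImplicit false

namespace Pool.Agent.Results.MP_26c4ab_lc.NoGreatestLowerBound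

open Pool.Agent.V11257.UFDiv Filter Set

/-- The chain. -/
noncomputable def G (n : ℕ) : Ultrafilter ℕ+ := (hyperfilter ℕ).map fun i => 2 ^ (2 ^ i - n)

theorem mem_G {n : ℕ} {A : Set ℕ+} :
    A ∈ G n ↔ ∀ᶠ i in (hyperfilter ℕ : Filter ℕ), (2 : ℕ+) ^ (2 ^ i - n) ∈ A := Iff.rfl

theorem ev_gt (k : ℕ) : ∀ᶠ i in (hyperfilter ℕ : Filter ℕ), k < 2 ^ i := by
  have h : (Iic k)ᶜ ∈ (hyperfilter ℕ : Filter ℕ) :=
    Filter.hyperfilter_le_cofinite (by
      rw [Filter.mem_cofinite, compl_compl]; exact finite_Iic k)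
  filter_upwards [h] with i hi
  have h1 : k < i := by simpa using hi
  exact h1.trans Nat.lt_two_pow_self

theorem G_mono {m n : ℕ} (h : m ≤ n) : FE (G n) (G m) := by
  intro B hB
  rw [mem_G] at hB
  refine ⟨{x | 2 ^ (n - m) * x ∈ B}, ?_, ?_⟩
  · rw [mem_G]
    filter_upwards [hB, ev_gt n] with i hi hin
    rw [← pow_add]
    have : n - m + (2 ^ i - n) = 2 ^ i - m := by omega
    rw [this]
    exact hi
  · intro S hS
    exact ⟨2 ^ (n - m), fun s hs => hS hs⟩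

/-- The powers of two are lower bounds. -/
theorem pure_le (m n : ℕ) : FE (pure (2 ^ m)) (G n) := by
  intro B hB
  refine ⟨{2 ^ m}, mem_pure'.2 rfl, ?_⟩
  intro S hS
  rw [mem_G] at hB
  obtain ⟨i, hi, him⟩ := (hB.and (ev_gt (m + n))).exists
  refine ⟨2 ^ (2 ^ i - n - m), fun s hs => ?_⟩
  have hs' : s = 2 ^ m := hS hs
  rw [hs', ← pow_add]
  have : 2 ^ i - n - m + m = 2 ^ i - n := by omega
  rw [this]
  exact hi

theorem two_pow_inj {a b : ℕ} (h : (2 : ℕ+) ^ a = 2 ^ b) : a = b := by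
  have h1 : ((2 : ℕ+) ^ a : ℕ+).val = ((2 : ℕ+) ^ b : ℕ+).val := congrArg _ h
  rw [PNat.pow_coe, PNat.pow_coe] at h1
  exact Nat.pow_right_injective le_rfl h1

theorem mul_eq_two_pow {k a : ℕ+} {e : ℕ} (h : k * a = 2 ^ e) :
    ∃ κ α : ℕ, k = 2 ^ κ ∧ a = 2 ^ α ∧ κ + α = e := by
  have h1 : (k : ℕ) * a = 2 ^ e := by
    have h0 : (k * a).val = ((2 : ℕ+) ^ e : ℕ+).val := congrArg _ h
    rw [PNat.mul_coe, PNat.pow_coe] at h0
    exact h0
  obtain ⟨κ, -, hκ⟩ := (Nat.dvd_prime_pow Nat.prime_two).1 (h1 ▸ dvd_mul_right (k : ℕ) a)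
  obtain ⟨α, -, hα⟩ := (Nat.dvd_prime_pow Nat.prime_two).1 (h1 ▸ dvd_mul_left (a : ℕ) k)
  refine ⟨κ, α, PNat.eq (by rw [hκ]; norm_cast), PNat.eq (by rw [hα]; norm_cast), ?_⟩
  rw [hκ, hα, ← pow_add] at h1
  exact Nat.pow_right_injective le_rfl h1

/-- Differences of powers of two determine the powers. -/
theorem diff_inj {i j i' j' : ℕ} (hij : i < j) (h : 2 ^ j - 2 ^ i = 2 ^ j' - 2 ^ i') :
    i = i' := by
  have h0 : 2 ^ i < 2 ^ j := Nat.pow_lt_pow_right (by norm_num) hij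
  have hij' : i' < j' := by
    by_contra hcon
    have : 2 ^ j' ≤ 2 ^ i' := Nat.pow_le_pow_right (by norm_num) (not_lt.1 hcon)
    omega
  have e1 : 2 ^ j - 2 ^ i = 2 ^ i * (2 ^ (j - i) - 1) := by
    rw [Nat.mul_sub, mul_one, ← pow_add]
    congr 2
    omega
  have e2 : 2 ^ j' - 2 ^ i' = 2 ^ i' * (2 ^ (j' - i') - 1) := by
    rw [Nat.mul_sub, mul_one, ← pow_add]
    congr 2
    omega
  have odd : ∀ n, 0 < n → ¬ 2 ∣ 2 ^ n - 1 := by
    intro n hn hd
    have h1 : 2 ∣ 2 ^ n := dvd_pow_self 2 hn.ne'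
    have h2 : 1 ≤ 2 ^ n := Nat.one_le_two_pow
    omega
  rw [e1, e2] at h
  rcases lt_trichotomy i i' with hlt | heq | hlt
  · exfalso
    have h3 : 2 ^ i' = 2 ^ i * 2 ^ (i' - i) := by rw [← pow_add]; congr 1; omega
    rw [h3, mul_assoc] at h
    have h4 := Nat.eq_of_mul_eq_mul_left (by positivity) h
    apply odd (j - i) (by omega)
    rw [h4]
    exact (dvd_pow_self 2 (by omega)).mul_right _
  · exact heq
  · exfalso
    have h3 : 2 ^ i = 2 ^ i' * 2 ^ (i - i') := by rw [← pow_add]; congr 1; omega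
    rw [h3, mul_assoc] at h
    have h4 := Nat.eq_of_mul_eq_mul_left (by positivity) h
    apply odd (j' - i') (by omega)
    rw [← h4]
    exact (dvd_pow_self 2 (by omega)).mul_right _

/-- A lower bound of `G n` that has an element above two given numbers. -/
theorem structure_lemma {n : ℕ} {A : Set ℕ+}
    (hA : SetFE A {x | ∃ i, n < 2 ^ i ∧ x = 2 ^ (2 ^ i - n)}) {a₁ a₂ : ℕ+} (h1 : a₁ ∈ A)
    (h2 : a₂ ∈ A) (hne : a₁ ≠ a₂) :
    ∃ c : ℕ, ∀ a ∈ A, ∃ i α : ℕ, a = 2 ^ α ∧ c + α + n = 2 ^ i := by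
  -- the value of the multiplier is determined by `a₁` and `a₂`
  have key : ∀ a ∈ A, ∃ κ i j l α₁ α₂ α : ℕ, a₁ = 2 ^ α₁ ∧ a₂ = 2 ^ α₂ ∧ a = 2 ^ α ∧
      κ + α₁ + n = 2 ^ i ∧ κ + α₂ + n = 2 ^ j ∧ κ + α + n = 2 ^ l := by
    intro a ha
    obtain ⟨k, hk⟩ := hA {a₁, a₂, a} (by
      intro x hx
      simp only [Finset.coe_insert, Finset.coe_singleton, mem_insert_iff, mem_singleton_iff] at hx
      rcases hx with rfl | rfl | rfl <;> assumption)
    obtain ⟨i, hi, hi'⟩ := hk a₁ (by simp)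
    obtain ⟨j, hj, hj'⟩ := hk a₂ (by simp)
    obtain ⟨l, hl, hl'⟩ := hk a (by simp)
    obtain ⟨κ₁, α₁, h3, h4, h5⟩ := mul_eq_two_pow hi'
    obtain ⟨κ₂, α₂, h6, h7, h8⟩ := mul_eq_two_pow hj'
    obtain ⟨κ₃, α, h9, h10, h11⟩ := mul_eq_two_pow hl'
    have e1 : κ₁ = κ₂ := two_pow_inj (h3.symm.trans h6)
    have e2 : κ₁ = κ₃ := two_pow_inj (h3.symm.trans h9)
    exact ⟨κ₁, i, j, l, α₁, α₂, α, h4, h7, h10, by omega, by omega, by omega⟩
  obtain ⟨κ, i, j, l, α₁, α₂, α, h3, h4, -, h5, h6, -⟩ := key a₁ h1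
  refine ⟨κ, fun a ha => ?_⟩
  obtain ⟨κ', i', j', l', α₁', α₂', α', h3', h4', h7', h5', h6', h8'⟩ := key a ha
  have e1 : α₁ = α₁' := two_pow_inj (h3.symm.trans h3')
  have e2 : α₂ = α₂' := two_pow_inj (h4.symm.trans h4')
  subst e1 e2
  have hαne : α₁ ≠ α₂ := by
    rintro rfl
    exact hne (h3.trans h4.symm)
  have hκ : κ = κ' := by
    rcases lt_or_gt_of_ne hαne with hlt | hlt
    · have hij : i < j := by
        by_contra hcon
        have : 2 ^ j ≤ 2 ^ i := Nat.pow_le_pow_right (by norm_num) (not_lt.1 hcon)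
        omega
      have := diff_inj hij (i' := i') (j' := j') (by omega)
      subst this
      omega
    · have hij : j < i := by
        by_contra hcon
        have : 2 ^ i ≤ 2 ^ j := Nat.pow_le_pow_right (by norm_num) (not_lt.1 hcon)
        omega
      have := diff_inj hij (i' := j') (j' := i') (by omega)
      subst this
      omega
  subst hκ
  exact ⟨l', α', h7', h8'⟩

/-- The only lower bounds are the powers of two. -/
theorem lower_bound {F : Ultrafilter ℕ+} (h : ∀ n, FE F (G n)) : ∃ m : ℕ, F = pure (2 ^ m) := by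
  have hB : ∀ n, {x : ℕ+ | ∃ i, n < 2 ^ i ∧ x = 2 ^ (2 ^ i - n)} ∈ G n := by
    intro n
    rw [mem_G]
    filter_upwards [ev_gt n] with i hi
    exact ⟨i, hi, rfl⟩
  by_cases hprin : ∃ a : ℕ+, F = pure a
  · obtain ⟨a, rfl⟩ := hprin
    obtain ⟨A, hA, hAB⟩ := h 0 _ (hB 0)
    obtain ⟨k, hk⟩ := hAB {a} (by simpa using mem_pure'.1 hA)
    obtain ⟨i, -, hi⟩ := hk a (Finset.mem_singleton_self a)
    obtain ⟨κ, α, -, h2, -⟩ := mul_eq_two_pow hi
    exact ⟨α, by rw [h2]⟩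
  · exfalso
    push Not at hprin
    have hinf : ∀ A ∈ F, A.Infinite := by
      intro A hA hfin
      obtain ⟨x, -, hx⟩ := Ultrafilter.eq_pure_of_finite_mem hfin hA
      exact hprin x hx
    obtain ⟨A, hA, hAB⟩ := h 0 _ (hB 0)
    obtain ⟨a₁, ha₁, a₂, ha₂, hne⟩ := (hinf A hA).nontrivial
    obtain ⟨c, hc⟩ := structure_lemma hAB ha₁ ha₂ hne
    obtain ⟨A', hA', hAB'⟩ := h (c + 1) _ (hB (c + 1))
    obtain ⟨a₁', ha₁', a₂', ha₂', hne'⟩ := (hinf A' hA').nontrivial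
    obtain ⟨c', hc'⟩ := structure_lemma hAB' ha₁' ha₂' hne'
    -- a large element
    have hlarge : ((A ∩ A') \ Set.Iic (2 ^ (c' + c + 1))).Nonempty :=
      ((hinf _ (inter_mem hA hA')).sdiff (finite_Iic _)).nonempty
    obtain ⟨a, ⟨haA, haA'⟩, hgt⟩ := hlarge
    obtain ⟨i, α, h1, h2⟩ := hc a haA
    obtain ⟨j, α', h3, h4⟩ := hc' a haA'
    have e : α = α' := two_pow_inj (h1.symm.trans h3)
    subst e
    have hα : c' + c + 1 < α := by
      by_contra hcon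
      apply hgt
      rw [h1]
      have h7 : (2 : ℕ) ^ α ≤ 2 ^ (c' + c + 1) := Nat.pow_le_pow_right (by norm_num) (not_lt.1 hcon)
      change ((2 : ℕ+) ^ α : ℕ+).val ≤ ((2 : ℕ+) ^ (c' + c + 1) : ℕ+).val
      rw [PNat.pow_coe, PNat.pow_coe]
      exact h7
    have hij : i < j := by
      by_contra hcon
      have : 2 ^ j ≤ 2 ^ i := Nat.pow_le_pow_right (by norm_num) (not_lt.1 hcon)
      omega
    have h5 : 2 ^ (i + 1) ≤ 2 ^ j := Nat.pow_le_pow_right (by norm_num) hij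
    rw [pow_succ] at h5
    omega

theorem not_le (m : ℕ) : ¬ FE (pure (2 ^ (m + 1))) (pure (2 ^ m)) := by
  intro h
  obtain ⟨A, hA, hAB⟩ := h {2 ^ m} (mem_pure'.2 rfl)
  obtain ⟨k, hk⟩ := hAB {2 ^ (m + 1)} (by simpa using mem_pure'.1 hA)
  have h1 : k * 2 ^ (m + 1) = 2 ^ m := hk _ (Finset.mem_singleton_self _)
  obtain ⟨κ, α, -, h2, h3⟩ := mul_eq_two_pow h1
  have := two_pow_inj h2
  omega

/-- There is a decreasing chain for finite embeddability whose set of lower bounds has no greatest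
element. -/
theorem result : ∃ G : ℕ → Ultrafilter ℕ+, (∀ i j, i ≤ j → FE (G j) (G i)) ∧
    ¬ ∃ H : Ultrafilter ℕ+, (∀ n, FE H (G n)) ∧
      ∀ F : Ultrafilter ℕ+, (∀ n, FE F (G n)) → FE F H := by
  refine ⟨G, fun i j => G_mono, ?_⟩
  rintro ⟨H, hH, hmax⟩
  obtain ⟨m, rfl⟩ := lower_bound hH
  exact not_le m (hmax _ fun n => pure_le (m + 1) n)

end Pool.Agent.Results.MP_26c4ab_lc.NoGreatestLowerBound
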